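import Pool.Agent.Helper7.EC_E.GoalsR

/-! Packet RAt: the t-channel of family A. -/

set_option autoImplicit false

open MeasureTheory Filter Topology Set

namespace EC237.ZE.PkRAt

open EC237 EC237.ZE

/-- Reversal of the triple. -/
def rev : Tri ≃ Tri where
  toFun p := (p.2.2, p.2.1, p.1)
  invFun p := (p.2.2, p.2.1, p.1)
  left_inv _ := rfl
  right_inv _ := rfl

theorem XX_swap (w : ℂ) (u v : SV) : XX w u v = -XX w v u := by
  unfold XX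
  ring

theorem Qs_swap (w : ℂ) (v1 v2 v3 v4 : SV) : Qs w v2 v3 v4 v1 = Qs w v3 v2 v1 v4 := by
  unfold Qs
  rw [XX_swap w v3 v2, XX_swap w v1 v4, neg_mul_neg, add_comm v3 v2]

theorem famA_rev (w : ℂ) (p : Tri) : famA (cQt w) p = famA (cQ w) (rev p) := by
  have hk : k4 (rev p) = k4 p := by
    show -(p.2.2 + p.2.1 + p.1) = -(p.1 + p.2.1 + p.2.2)
    congr 1
    abel
  have hc : ClT 1 1 1 (rev p) ↔ ClT 1 1 1 p := by
    show (InCl 1 p.2.2 ∧ InCl 1 p.2.1 ∧ InCl 1 p.1) ↔ (InCl 1 p.1 ∧ InCl 1 p.2.1 ∧ InCl 1 p.2.2)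
    tauto
  unfold famA
  rw [hk]
  by_cases h : ClT 1 1 1 p
  · rw [if_pos h, if_pos (hc.2 h)]
    show PowerSeries.coeff 2 (Qs w (p.2.1, -1) (p.2.2, 1) (k4 p, -1) (p.1, 1)) =
      PowerSeries.coeff 2 (Qs w (p.2.2, 1) (p.2.1, -1) (p.1, 1) (k4 p, -1))
    rw [Qs_swap]
  · rw [if_neg h, if_neg (fun h' => h (hc.1 h'))]

theorem thm (h1 : EC237.ZE.G_RA) : EC237.ZE.G_RAt := by
  intro y hy
  have h2 : famA (cQt (y:ℂ)) = famA (cQ (y:ℂ)) ∘ rev := funext fun p => famA_rev _ p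
  rw [h2]
  refine ⟨(rev.summable_iff).2 (h1 y hy).1, ?_⟩
  exact rev.tsum_eq (famA (cQ (y:ℂ)))

end EC237.ZE.PkRAt
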